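import Pool.Agent.H80.LD.Targets

/-!
# MP_47c37b, board ldp, row FRP: positivity for four replicas
-/

set_option autoImplicit false

open MeasureTheory Filter Topology
open scoped ENNReal

namespace Pool.Agent.H11.LDP

open Pool.Agent.H80.LD
open Pool.Agent.H43.DPC (V S SD)

/-! ### products -/

theorem lintegral_fin_prod {n : ℕ} {E : Type} [MeasureSpace E]
    [SigmaFinite (volume : Measure E)] (f : Fin n → E → ℝ≥0∞) (hf : ∀ i, Measurable (f i)) :
    ∫⁻ x : Fin n → E, ∏ i, f i (x i) = ∏ i, ∫⁻ x, f i x := by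
  induction n with
  | zero =>
    simp [volume_pi, lintegral_unique]
  | succ n ih =>
    have hmp := (volume_preserving_piFinSuccAbove (fun _ : Fin (n + 1) => E) 0).symm
    rw [← hmp.lintegral_comp_emb (MeasurableEquiv.measurableEmbedding _)]
    have h1 : ∀ y : E × (Fin n → E),
        (∏ i, f i ((MeasurableEquiv.piFinSuccAbove (fun _ : Fin (n + 1) => E) 0).symm y i)) =
        f 0 y.1 * ∏ i : Fin n, f i.succ (y.2 i) := by
      intro y
      rw [Fin.prod_univ_succ]
      rfl
    simp_rw [h1]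
    have h2 := lintegral_prod_mul (μ := (volume : Measure E)) (ν := (volume : Measure (Fin n → E)))
      (f := f 0) (g := fun y => ∏ i : Fin n, f i.succ (y i)) (hf 0).aemeasurable
      (by
        apply Measurable.aemeasurable
        exact Finset.measurable_fun_prod _ (fun i _ => (hf i.succ).comp (measurable_pi_apply i)))
    rw [ih (fun i => f i.succ) (fun i => hf i.succ)] at h2
    rw [Fin.prod_univ_succ]
    exact h2

theorem pi_withDensity {n : ℕ} {E : Type} [MeasureSpace E]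
    [SigmaFinite (volume : Measure E)] (a : E → ℝ≥0∞) (ha : Measurable a) (hfin : ∀ x, a x ≠ ∞) :
    Measure.pi (fun _ : Fin n => (volume : Measure E).withDensity a) =
      (volume : Measure (Fin n → E)).withDensity (fun x => ∏ i, a (x i)) := by
  have hs : SigmaFinite ((volume : Measure E).withDensity a) :=
    SigmaFinite.withDensity_of_ne_top' hfin
  refine Measure.pi_eq (fun s hs => ?_)
  rw [withDensity_apply _ (MeasurableSet.univ_pi hs)]
  have h1 : ∀ i, (volume : Measure E).withDensity a (s i) =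
      ∫⁻ x, (s i).indicator a x := by
    intro i
    rw [withDensity_apply _ (hs i), lintegral_indicator (hs i)]
  simp_rw [h1]
  rw [← lintegral_fin_prod (fun i => (s i).indicator a) (fun i => ha.indicator (hs i)),
    ← lintegral_indicator (MeasurableSet.univ_pi hs)]
  apply lintegral_congr
  intro x
  by_cases hx : x ∈ Set.univ.pi s
  · rw [Set.indicator_of_mem hx]
    apply Finset.prod_congr rfl
    intro i _
    rw [Set.indicator_of_mem (hx i (Set.mem_univ i))]
  · rw [Set.indicator_of_notMem hx]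
    rw [Set.mem_univ_pi] at hx
    push Not at hx
    obtain ⟨i, hi⟩ := hx
    symm
    exact Finset.prod_eq_zero (Finset.mem_univ i) (Set.indicator_of_notMem hi a)

/-! ### exchange of sites and replicas -/

/-- the transposition -/
def tr (N : ℕ) : (Fin 4 → Fin N → ℝ) ≃ₗ[ℝ] (Fin N → Fin 4 → ℝ) where
  toFun Y := fun x i => Y i x
  invFun Z := fun i x => Z x i
  map_add' _ _ := rfl
  map_smul' _ _ := rfl
  left_inv _ := rfl
  right_inv _ := rfl

theorem tr_emb (N : ℕ) : MeasurableEmbedding ((tr N).toContinuousLinearEquiv :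
    (Fin 4 → Fin N → ℝ) → (Fin N → Fin 4 → ℝ)) :=
  (tr N).toContinuousLinearEquiv.toHomeomorph.measurableEmbedding

theorem tr_vol (N : ℕ) : ∃ c : ℝ≥0∞, c ≠ ∞ ∧
    Measure.map ((tr N).toContinuousLinearEquiv : (Fin 4 → Fin N → ℝ) → (Fin N → Fin 4 → ℝ))
      (volume : Measure (Fin 4 → Fin N → ℝ)) = c • (volume : Measure (Fin N → Fin 4 → ℝ)) := by
  have i1 : (volume : Measure (Fin 4 → Fin N → ℝ)).IsAddHaarMeasure :=
    Measure.instIsAddHaarMeasureForallVolumeOfMeasurableAddOfSigmaFinite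
  have i2 : (volume : Measure (Fin N → Fin 4 → ℝ)).IsAddHaarMeasure :=
    Measure.instIsAddHaarMeasureForallVolumeOfMeasurableAddOfSigmaFinite
  have h1 : (Measure.map ((tr N).toContinuousLinearEquiv :
      (Fin 4 → Fin N → ℝ) → (Fin N → Fin 4 → ℝ))
      (volume : Measure (Fin 4 → Fin N → ℝ))).IsAddHaarMeasure :=
    (tr N).toContinuousLinearEquiv.isAddHaarMeasure_map _
  have h2 := Measure.isAddLeftInvariant_eq_smul (Measure.map ((tr N).toContinuousLinearEquiv :
      (Fin 4 → Fin N → ℝ) → (Fin N → Fin 4 → ℝ))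
      (volume : Measure (Fin 4 → Fin N → ℝ))) (volume : Measure (Fin N → Fin 4 → ℝ))
  exact ⟨_, ENNReal.coe_ne_top, h2⟩

theorem int_tr (N : ℕ) (F : Fin N → (Fin 4 → ℝ) → ℝ) (hF : ∀ x, 0 ≤ ∫ y, F x y) :
    0 ≤ ∫ Y : Fin 4 → Fin N → ℝ, ∏ x, F x (fun i => Y i x) := by
  obtain ⟨c, -, hc⟩ := tr_vol N
  have h1 : ∫ Y : Fin 4 → Fin N → ℝ, ∏ x, F x (fun i => Y i x) =
      ∫ Z, ∏ x, F x (Z x) ∂(Measure.map ((tr N).toContinuousLinearEquiv :
      (Fin 4 → Fin N → ℝ) → (Fin N → Fin 4 → ℝ)) (volume : Measure (Fin 4 → Fin N → ℝ))) :=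
    ((tr_emb N).integral_map (μ := (volume : Measure (Fin 4 → Fin N → ℝ)))
      (fun Z => ∏ x, F x (Z x))).symm
  rw [h1, hc, integral_smul_measure, integral_fintype_prod_volume_eq_prod]
  exact smul_nonneg ENNReal.toReal_nonneg (Finset.prod_nonneg fun x _ => hF x)

theorem itg_tr (N : ℕ) (F : Fin N → (Fin 4 → ℝ) → ℝ) (hF : ∀ x, Integrable (F x)) :
    Integrable fun Y : Fin 4 → Fin N → ℝ => ∏ x, F x (fun i => Y i x) := by
  obtain ⟨c, hct, hc⟩ := tr_vol N
  have h1 : Integrable (fun Z : Fin N → Fin 4 → ℝ => ∏ x, F x (Z x))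
      (Measure.map ((tr N).toContinuousLinearEquiv : (Fin 4 → Fin N → ℝ) → (Fin N → Fin 4 → ℝ))
      (volume : Measure (Fin 4 → Fin N → ℝ))) := by
    rw [hc]
    exact (Integrable.fintype_prod hF).smul_measure hct
  exact (tr_emb N).integrable_map_iff.1 h1

/-! ### the row -/

/-- the four variables at a site -/
noncomputable def yv {N : ℕ} (k : Fin N × Fin 4) (Y : Fin 4 → Fin N → ℝ) : ℝ :=
  ![al (fun i => Y i k.1), be (fun i => Y i k.1), ga (fun i => Y i k.1),
    de (fun i => Y i k.1)] k.2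

theorem prod_yv {N : ℕ} (m : Fin N × Fin 4 → ℕ) (Y : Fin 4 → Fin N → ℝ) :
    ∏ k, yv k Y ^ m k = ∏ x, (al (fun i => Y i x) ^ m (x, 0) * be (fun i => Y i x) ^ m (x, 1) *
      ga (fun i => Y i x) ^ m (x, 2) * de (fun i => Y i x) ^ m (x, 3)) := by
  rw [Fintype.prod_prod_type]
  refine Finset.prod_congr rfl fun x _ => ?_
  rw [Fin.prod_univ_four]
  rfl

theorem sum_yv {N : ℕ} (Y : Fin 4 → Fin N → ℝ) (x x' : Fin N) :
    ∑ j, yv (x, j) Y * yv (x', j) Y = ∑ i, Y i x * Y i x' := by
  rw [Fin.sum_univ_four, Fin.sum_univ_four]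
  simp only [yv, Matrix.cons_val, al, be, ga, de]
  ring

theorem meas_yv {N : ℕ} (k : Fin N × Fin 4) : Measurable (yv k) := by
  obtain ⟨x, j⟩ := k
  have h : ∀ i : Fin 4, Measurable fun Y : Fin 4 → Fin N → ℝ => Y i x := fun i =>
    (measurable_pi_apply x).comp (measurable_pi_apply i)
  have h0 := h 0
  have h1 := h 1
  have h2 := h 2
  have h3 := h 3
  fin_cases j
  · show Measurable fun Y : Fin 4 → Fin N → ℝ => (Y 0 x + Y 1 x + Y 2 x + Y 3 x) / 2
    fun_prop
  · show Measurable fun Y : Fin 4 → Fin N → ℝ => (Y 0 x + Y 1 x - Y 2 x - Y 3 x) / 2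
    fun_prop
  · show Measurable fun Y : Fin 4 → Fin N → ℝ => (Y 0 x - Y 1 x + Y 2 x - Y 3 x) / 2
    fun_prop
  · show Measurable fun Y : Fin 4 → Fin N → ℝ => -(Y 0 x - Y 1 x - Y 2 x + Y 3 x) / 2
    fun_prop

/-- the single site energies -/
noncomputable def en {d : ℕ} {e : V d} (A : Sys d e) (Y : Fin 4 → Fin A.N → ℝ) : ℝ :=
  ∑ x, ∑ i, (A.g x * Y i x ^ 4 + A.b x * Y i x ^ 2)

theorem meas_en {d : ℕ} {e : V d} (A : Sys d e) : Measurable (en A) := by
  unfold en
  refine Finset.measurable_sum _ fun x _ => Finset.measurable_sum _ fun i _ => ?_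
  have h : Measurable fun Y : Fin 4 → Fin A.N → ℝ => Y i x :=
    (measurable_pi_apply x).comp (measurable_pi_apply i)
  fun_prop

theorem meas_H {d : ℕ} {e : V d} (A : Sys d e) : Measurable A.H := by
  unfold Sys.H
  have h : ∀ x : Fin A.N, Measurable fun φ : Fin A.N → ℝ => φ x := fun x => measurable_pi_apply x
  refine Measurable.sub ?_ (Measurable.const_mul ?_ _)
  · refine Finset.measurable_sum _ fun x _ => ?_
    have := h x
    fun_prop
  · refine Finset.measurable_sum _ fun x _ => Finset.measurable_sum _ fun y _ => ?_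
    have := h x
    have := h y
    fun_prop

theorem sum_H {d : ℕ} {e : V d} (A : Sys d e) (Y : Fin 4 → Fin A.N → ℝ) :
    ∑ i, A.H (Y i) = en A Y - ∑ k : Fin A.N × Fin 4, ∑ l : Fin A.N × Fin 4,
      (if k.2 = l.2 then 1 / 2 * A.J k.1 l.1 else 0) * yv k Y * yv l Y := by
  have h1 : ∑ k : Fin A.N × Fin 4, ∑ l : Fin A.N × Fin 4,
      (if k.2 = l.2 then 1 / 2 * A.J k.1 l.1 else 0) * yv k Y * yv l Y =
      ∑ x, ∑ y, 1 / 2 * A.J x y * ∑ i, Y i x * Y i y := by
    rw [Fintype.sum_prod_type]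
    refine Finset.sum_congr rfl fun x _ => ?_
    simp only [Fintype.sum_prod_type]
    rw [Finset.sum_comm]
    refine Finset.sum_congr rfl fun y _ => ?_
    rw [← sum_yv Y x y, Finset.mul_sum]
    refine Finset.sum_congr rfl fun j _ => ?_
    rw [Finset.sum_eq_single j]
    · rw [if_pos rfl]
      ring
    · intro l _ hl
      rw [if_neg (fun h => hl h.symm), zero_mul, zero_mul]
    · intro h
      exact absurd (Finset.mem_univ j) h
  rw [h1]
  unfold Sys.H en
  rw [Finset.sum_sub_distrib, Finset.sum_comm]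
  congr 1
  rw [← Finset.mul_sum, Finset.sum_comm, Finset.mul_sum]
  refine Finset.sum_congr rfl fun x _ => ?_
  rw [Finset.sum_comm, Finset.mul_sum]
  refine Finset.sum_congr rfl fun y _ => ?_
  rw [Finset.mul_sum, Finset.mul_sum]
  refine Finset.sum_congr rfl fun i _ => ?_
  ring

theorem pf_FRP (hLAW : T_LAW) (hSSP : T_SSP) (hEXQ : T_EXQ) : T_FRP := by
  intro d e A m
  -- the product of the single site measures
  have hD : Measurable fun Y : Fin 4 → Fin A.N → ℝ => ENNReal.ofReal (Real.exp (-en A Y)) :=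
    ENNReal.measurable_ofReal.comp (Real.measurable_exp.comp (meas_en A).neg)
  have hDt : ∀ᵐ Y : Fin 4 → Fin A.N → ℝ, ENNReal.ofReal (Real.exp (-en A Y)) < ∞ :=
    Eventually.of_forall fun Y => ENNReal.ofReal_lt_top
  have hen : ∀ Y, Real.exp (-en A Y) =
      ∏ x, Real.exp (-∑ i, (A.g x * Y i x ^ 4 + A.b x * Y i x ^ 2)) := by
    intro Y
    rw [← Real.exp_sum, Finset.sum_neg_distrib]
    rfl
  have key := hEXQ (Fin 4 → Fin A.N → ℝ)
    (volume.withDensity fun Y => ENNReal.ofReal (Real.exp (-en A Y))) (Fin A.N × Fin 4) yv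
    (fun k l => if k.2 = l.2 then 1 / 2 * A.J k.1 l.1 else 0) meas_yv (by
      intro C
      rw [integrable_withDensity_iff_integrable_smul' hD hDt]
      have h1 := itg_tr A.N (fun x y => Real.exp (C * ∑ i, y i ^ 2 -
        ∑ i, (A.g x * y i ^ 4 + A.b x * y i ^ 2))) (fun x => (hSSP (A.g x) (A.b x) (A.g_pos x)).1 C)
      refine h1.congr (Eventually.of_forall fun Y => ?_)
      dsimp only
      rw [ENNReal.toReal_ofReal (Real.exp_nonneg _), smul_eq_mul, hen, Fintype.sum_prod_type,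
        Finset.mul_sum, Real.exp_sum, ← Finset.prod_mul_distrib]
      refine Finset.prod_congr rfl fun x _ => ?_
      rw [← Real.exp_add]
      congr 1
      have h2 := sum_yv Y x x
      have h3 : ∑ y : Fin 4, yv (x, y) Y ^ 2 = ∑ i, Y i x ^ 2 := by
        simp only [pow_two]
        exact h2
      rw [h3]
      ring) (by
      intro n
      rw [integral_withDensity_eq_integral_toReal_smul hD hDt]
      have h1 := int_tr A.N (fun x y => al y ^ n (x, 0) * be y ^ n (x, 1) * ga y ^ n (x, 2) *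
        de y ^ n (x, 3) * Real.exp (-∑ i, (A.g x * y i ^ 4 + A.b x * y i ^ 2)))
        (fun x => (hSSP (A.g x) (A.b x) (A.g_pos x)).2 _ _ _ _)
      refine h1.trans (le_of_eq ?_)
      refine integral_congr_ae (Eventually.of_forall fun Y => ?_)
      dsimp only
      rw [ENNReal.toReal_ofReal (Real.exp_nonneg _), smul_eq_mul, hen, prod_yv,
        ← Finset.prod_mul_distrib]
      refine Finset.prod_congr rfl fun x _ => ?_
      ring) (by
      intro k l
      show 0 ≤ if k.2 = l.2 then 1 / 2 * A.J k.1 l.1 else 0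
      split_ifs
      · exact mul_nonneg (by norm_num) (A.J_nonneg _ _)
      · exact le_rfl) (fun k => m k.1 k.2)
  rw [integral_withDensity_eq_integral_toReal_smul hD hDt] at key
  -- the four Gibbs measures
  have hrho : Measurable fun φ : Fin A.N → ℝ => ENNReal.ofReal (Real.exp (-A.H φ)) :=
    ENNReal.measurable_ofReal.comp (Real.measurable_exp.comp (meas_H A).neg)
  have hc : (∫⁻ φ, ENNReal.ofReal (Real.exp (-A.H φ)))⁻¹ ≠ ∞ := by
    rw [Ne, ENNReal.inv_eq_top]
    intro h0
    have h1 := (hLAW d e A).2.1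
    have h2 : ∫ φ, Real.exp (-A.H φ) = (∫⁻ φ, ENNReal.ofReal (Real.exp (-A.H φ))).toReal :=
      integral_eq_lintegral_of_nonneg_ae (f := fun φ => Real.exp (-A.H φ))
        (Eventually.of_forall fun φ => Real.exp_nonneg _)
        (Real.measurable_exp.comp (meas_H A).neg).aestronglyMeasurable
    rw [h2, h0] at h1
    simp at h1
  have hlaw : A.law = volume.withDensity (fun φ => (∫⁻ φ, ENNReal.ofReal (Real.exp (-A.H φ)))⁻¹ *
      ENNReal.ofReal (Real.exp (-A.H φ))) := by
    unfold Sys.law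
    rw [← withDensity_smul _ hrho]
    rfl
  generalize (∫⁻ φ, ENNReal.ofReal (Real.exp (-A.H φ)))⁻¹ = c at hc hlaw
  have hpi : Measure.pi (fun _ : Fin 4 => A.law) =
      (volume : Measure (Fin 4 → Fin A.N → ℝ)).withDensity
        (fun Y => ∏ i, (c * ENNReal.ofReal (Real.exp (-A.H (Y i))))) := by
    rw [hlaw]
    exact pi_withDensity _ (hrho.const_mul c) fun φ => ENNReal.mul_ne_top hc ENNReal.ofReal_ne_top
  have hm1 : Measurable fun Y : Fin 4 → Fin A.N → ℝ =>
      ∏ i, (c * ENNReal.ofReal (Real.exp (-A.H (Y i)))) :=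
    Finset.measurable_fun_prod _ fun i _ => (hrho.const_mul c).comp (measurable_pi_apply i)
  have hm2 : ∀ᵐ Y : Fin 4 → Fin A.N → ℝ, ∏ i, (c * ENNReal.ofReal (Real.exp (-A.H (Y i)))) < ∞ :=
    Eventually.of_forall fun Y =>
      ENNReal.prod_lt_top fun i _ => ENNReal.mul_lt_top hc.lt_top ENNReal.ofReal_lt_top
  rw [hpi, integral_withDensity_eq_integral_toReal_smul hm1 hm2]
  have hfin : (∫ Y : Fin 4 → Fin A.N → ℝ,
      (∏ i, (c * ENNReal.ofReal (Real.exp (-A.H (Y i))))).toReal •
      ∏ x, (al (fun i => Y i x) ^ m x 0 * be (fun i => Y i x) ^ m x 1 *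
        ga (fun i => Y i x) ^ m x 2 * de (fun i => Y i x) ^ m x 3)) =
      c.toReal ^ 4 * ∫ Y : Fin 4 → Fin A.N → ℝ, (ENNReal.ofReal (Real.exp (-en A Y))).toReal •
      ((∏ k, yv k Y ^ m k.1 k.2) * Real.exp (∑ k : Fin A.N × Fin 4, ∑ l : Fin A.N × Fin 4,
      (if k.2 = l.2 then 1 / 2 * A.J k.1 l.1 else 0) * yv k Y * yv l Y)) := by
    rw [← integral_const_mul]
    refine integral_congr_ae (Eventually.of_forall fun Y => ?_)
    dsimp only
    rw [ENNReal.toReal_prod, prod_yv (fun k => m k.1 k.2) Y, ENNReal.toReal_ofReal (Real.exp_nonneg _)]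
    simp only [ENNReal.toReal_mul, ENNReal.toReal_ofReal (Real.exp_nonneg _)]
    rw [Finset.prod_mul_distrib, Finset.prod_const, Finset.card_univ, Fintype.card_fin,
      ← Real.exp_sum, Finset.sum_neg_distrib, sum_H A Y, neg_sub, sub_eq_add_neg, Real.exp_add,
      smul_eq_mul, smul_eq_mul]
    ring
  rw [hfin]
  exact mul_nonneg (pow_nonneg ENNReal.toReal_nonneg 4) key

end Pool.Agent.H11.LDP
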